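import Mathlib
import Pool.Agent.Results.MP_0e87b2_co.TwoSetFailure

/-!
# Restricted sums in two sets: the complete answer for `d = n - t`

For sets `A, B ⊆ ℤ/p` with `|A| = |B| = n` and a set `F` of forbidden pairs of maximum degree at
most `d = n - t`, `t ≥ 2`, the best possible lower bound for the size of the restricted sum is
`n - d + 1` (and not `2 n - 2 d - 1`): it holds already for the restricted sum of `A` and a set of
two elements of `B`, and for every `t ≥ 2` and every large prime `p` it is attained for the whole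
set `B`.  So the two-set statement holds for `d = n - t` if and only if `t ≤ 2`; the one-set
statement, which is known for `t ≤ 3`, fails for all `t ≥ 4`.

The starting file gives the two-set examples for even `t ≥ 4` (the target set is there the image
of the cross `0, ± e_i`); here the target set is the image of the simplex `0, e_i` and `B = - A`.
-/

set_option autoImplicit false

namespace Pool.Agent.Results.MP_0e87b2_co.FixedCodegree

open Finset Pool.Agent.Results.MP_0e87b2_co.TwoSetFailure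
open scoped Pointwise

/-- the restricted sum `A +_F B` -/
def rsum {p : ℕ} (A B : Finset (ZMod p)) (F : Finset (ZMod p × ZMod p)) : Finset (ZMod p) :=
  ((A ×ˢ B) \ F).image (fun x => x.1 + x.2)

/-- the maximum degree of the bipartite graph `F` is at most `d` -/
def DegLe {p : ℕ} (F : Finset (ZMod p × ZMod p)) (d : ℕ) : Prop :=
  (∀ a : ZMod p, (F.filter (fun x => x.1 = a)).card ≤ d) ∧
    ∀ b : ZMod p, (F.filter (fun x => x.2 = b)).card ≤ d

/-- the statement of Question 1 for `β` -/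
def Q1 (β : ℝ) : Prop :=
  ∃ c n₀ : ℕ, ∀ p : ℕ, p.Prime → ∀ (A B : Finset (ZMod p)) (F : Finset (ZMod p × ZMod p)) (d : ℕ),
    n₀ ≤ A.card → A.card = B.card → (A.card : ℝ) < (1 - β) * (p : ℝ) / 2 → F ⊆ A ×ˢ B →
    DegLe F d → ∃ B' : Finset (ZMod p), B' ⊆ B ∧ B'.card ≤ c ∧
      2 * (A.card : ℤ) - 2 * (d : ℤ) - 1 ≤ ((rsum A B' F).card : ℤ)

/-- the statement of Question 1 for `β` and `d = n - t` -/
def TwoSet (β : ℝ) (t : ℕ) : Prop :=
  ∃ c n₀ : ℕ, ∀ p : ℕ, p.Prime → ∀ (A B : Finset (ZMod p)) (F : Finset (ZMod p × ZMod p)) (d : ℕ),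
    n₀ ≤ A.card → A.card = B.card → (A.card : ℝ) < (1 - β) * (p : ℝ) / 2 → F ⊆ A ×ˢ B →
    DegLe F d → A.card = d + t → ∃ B' : Finset (ZMod p), B' ⊆ B ∧ B'.card ≤ c ∧
      2 * (A.card : ℤ) - 2 * (d : ℤ) - 1 ≤ ((rsum A B' F).card : ℤ)

/-- the one-set statement (`B = A`) for `β` and `d = n - t` -/
def OneSet (β : ℝ) (t : ℕ) : Prop :=
  ∃ c n₀ : ℕ, ∀ p : ℕ, p.Prime → ∀ (A : Finset (ZMod p)) (F : Finset (ZMod p × ZMod p)) (d : ℕ),
    n₀ ≤ A.card → (A.card : ℝ) < (1 - β) * (p : ℝ) / 2 → F ⊆ A ×ˢ A →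
    DegLe F d → A.card = d + t → ∃ B' : Finset (ZMod p), B' ⊆ A ∧ B'.card ≤ c ∧
      2 * (A.card : ℤ) - 2 * (d : ℤ) - 1 ≤ ((rsum A B' F).card : ℤ)

/-! ### The lower bound -/

/-- the partners of `b` -/
theorem partners {p : ℕ} {A B : Finset (ZMod p)} {F : Finset (ZMod p × ZMod p)} {d : ℕ}
    (hF : DegLe F d) {b : ZMod p} (hb : b ∈ B) :
    ∃ P : Finset (ZMod p), P ⊆ A ∧ A.card ≤ P.card + d ∧ rsum A {b} F = P.image (fun a => a + b) ∧
      (P.image (fun a => a + b)).card = P.card := by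
  classical
  refine ⟨A.filter (fun a => (a, b) ∉ F), Finset.filter_subset _ _, ?_, ?_, ?_⟩
  · have h1 := Finset.card_filter_add_card_filter_not (s := A) (fun a => (a, b) ∉ F)
    have h2 : (A.filter (fun a => ¬ (a, b) ∉ F)).card ≤ d := by
      refine le_trans ?_ (hF.2 b)
      apply Finset.card_le_card_of_injOn (fun a => (a, b))
      · intro a ha
        rw [Finset.mem_coe, Finset.mem_filter] at ha ⊢
        exact ⟨not_not.1 ha.2, rfl⟩
      · intro a _ a' _ h
        exact (Prod.ext_iff.1 h).1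
    omega
  · ext s
    simp only [rsum, Finset.mem_image, Finset.mem_sdiff, Finset.mem_product, Finset.mem_singleton,
      Finset.mem_filter]
    constructor
    · rintro ⟨⟨a, b'⟩, ⟨⟨ha, hb'⟩, hF'⟩, rfl⟩
      simp only at ha hb' hF' ⊢
      subst hb'
      exact ⟨a, ⟨ha, hF'⟩, rfl⟩
    · rintro ⟨a, ⟨ha, hF'⟩, rfl⟩
      exact ⟨(a, b), ⟨⟨ha, rfl⟩, hF'⟩, rfl⟩
  · exact Finset.card_image_of_injective _ (fun a a' h => add_right_cancel h)

theorem rsum_mono {p : ℕ} {A B B' : Finset (ZMod p)} {F : Finset (ZMod p × ZMod p)}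
    (h : B' ⊆ B) : rsum A B' F ⊆ rsum A B F := by
  unfold rsum
  exact Finset.image_subset_image (Finset.sdiff_subset_sdiff
    (Finset.product_subset_product_right h) (Finset.Subset.refl _))

/-- **The lower bound**: two elements of `B` suffice for `n - d + 1` sums -/
theorem lower (p : ℕ) (hp : p.Prime) (A B : Finset (ZMod p)) (F : Finset (ZMod p × ZMod p))
    (d : ℕ) (hAB : A.card = B.card) (hAp : A.card < p) (hF : DegLe F d) (hd : d + 2 ≤ A.card) :
    ∃ B' : Finset (ZMod p), B' ⊆ B ∧ B'.card ≤ 2 ∧ A.card + 1 ≤ d + (rsum A B' F).card := by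
  classical
  have : Fact p.Prime := ⟨hp⟩
  by_contra hcon
  push Not at hcon
  have hBne : B.Nonempty := by
    rw [← Finset.card_pos, ← hAB]; omega
  obtain ⟨b0, hb0⟩ := hBne
  -- all the sets `rsum A {b} F` agree
  have hall : ∀ b ∈ B, rsum A {b} F = rsum A {b0} F := by
    intro b hb
    obtain ⟨P, hPA, hPc, hP, hPi⟩ := partners (A := A) hF hb
    obtain ⟨P0, hPA0, hPc0, hP0, hPi0⟩ := partners (A := A) hF hb0
    have h1 := hcon {b, b0} (by
      intro x hx
      rcases Finset.mem_insert.1 hx with rfl | hx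
      · exact hb
      · rw [Finset.mem_singleton.1 hx]; exact hb0) Finset.card_le_two
    have s1 : rsum A {b} F ⊆ rsum A {b, b0} F := rsum_mono (by simp)
    have s2 : rsum A {b0} F ⊆ rsum A {b, b0} F := rsum_mono (by simp)
    have e1 : rsum A {b} F = rsum A {b, b0} F := by
      apply Finset.eq_of_subset_of_card_le s1
      rw [hP, hPi]; omega
    have e2 : rsum A {b0} F = rsum A {b, b0} F := by
      apply Finset.eq_of_subset_of_card_le s2
      rw [hP0, hPi0]; omega
    rw [e1, e2]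
  obtain ⟨P0, hPA0, hPc0, hP0, hPi0⟩ := partners (A := A) hF hb0
  set T : Finset (ZMod p) := rsum A {b0} F with hT
  have hTc : 2 ≤ T.card := by
    rw [hP0, hPi0]; omega
  have hsub : T + (-B) ⊆ A := by
    intro x hx
    obtain ⟨s, hs, y, hy, rfl⟩ := Finset.mem_add.1 hx
    rw [Finset.mem_neg] at hy
    obtain ⟨b, hb, rfl⟩ := hy
    rw [← hall b hb] at hs
    obtain ⟨P, hPA, -, hP, -⟩ := partners (A := A) hF hb
    rw [hP] at hs
    obtain ⟨a, ha, rfl⟩ := Finset.mem_image.1 hs
    have : a + b + -b = a := by ring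
    rw [this]
    exact hPA ha
  have hnegB : (-B).card = B.card := by simp
  have hcd := ZMod.cauchy_davenport hp (s := T) (t := -B) (Finset.card_pos.1 (by omega))
    (Finset.card_pos.1 (by rw [hnegB, ← hAB]; omega))
  have h2 := Finset.card_le_card hsub
  rw [hnegB, ← hAB] at hcd
  omega

/-! ### Sizes, for every large prime -/

theorem sizes' (β : ℝ) (hβ0 : 0 < β) (hβ : β < 1) (k : ℕ) (hk : 1 ≤ k) (n₀ : ℕ) :
    ∃ P₀ : ℕ, ∀ p : ℕ, p.Prime → P₀ ≤ p → ∃ (r q : ℤ), 3 ≤ r ∧ 3 ≤ q ∧ q * r ^ k ≤ p ∧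
      (n₀ : ℤ) ≤ (p : ℤ) - (r - 2) ^ k * (q - 2) ∧
      ((p : ℝ) - ((r : ℝ) - 2) ^ k * ((q : ℝ) - 2)) < (1 - β) * p / 2 := by
  have hδ : 0 < 1 - β := by linarith
  obtain ⟨r, hr⟩ := exists_nat_gt (16 * (k : ℝ) / (1 - β) + 4)
  have hr4 : (4 : ℝ) < r := by
    have : 0 ≤ 16 * (k : ℝ) / (1 - β) := by positivity
    linarith
  have hr4' : 4 < r := by exact_mod_cast hr4
  obtain ⟨P, hP⟩ := exists_nat_gt (8 * (r : ℝ) ^ k / (1 - β))
  refine ⟨P + r ^ k * (n₀ + 3) + 1, fun p hp hp1 => ?_⟩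
  let q : ℕ := p / r ^ k
  have hrk : 0 < r ^ k := by positivity
  have hq1 : q * r ^ k ≤ p := Nat.div_mul_le_self p (r ^ k)
  have hq2 : p < q * r ^ k + r ^ k := by
    have := Nat.lt_div_mul_add hrk (a := p)
    simpa [q] using this
  have hq3 : n₀ + 3 ≤ q := by
    rw [Nat.le_div_iff_mul_le hrk]
    nlinarith
  have hlt : (r - 2 : ℤ) ^ k < (r : ℤ) ^ k :=
    pow_lt_pow_left₀ (by omega) (by omega) (by omega)
  refine ⟨r, q, by omega, by omega, by exact_mod_cast hq1, ?_, ?_⟩
  · have h1 : ((r : ℤ) - 2) ^ k + 1 ≤ (r : ℤ) ^ k := hlt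
    have h2 : (q : ℤ) * (r : ℤ) ^ k ≤ p := by exact_mod_cast hq1
    have h3 : (n₀ : ℤ) + 3 ≤ q := by exact_mod_cast hq3
    have h4 : (0 : ℤ) ≤ ((r : ℤ) - 2) ^ k := by
      apply pow_nonneg; omega
    nlinarith
  · have hrpos : (0 : ℝ) < r := by linarith
    have hb : 1 + (k : ℝ) * (-(2 / (r : ℝ))) ≤ (1 + (-(2 / (r : ℝ)))) ^ k := by
      apply one_add_mul_le_pow
      have : 2 / (r : ℝ) ≤ 2 := by
        rw [div_le_iff₀ hrpos]; linarith
      linarith
    have hb2 : (r : ℝ) ^ k * (1 - 2 * k / r) ≤ ((r : ℝ) - 2) ^ k := by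
      have e1 : ((r : ℝ) - 2) ^ k = (r : ℝ) ^ k * (1 + (-(2 / (r : ℝ)))) ^ k := by
        rw [← mul_pow]; congr 1; field_simp; ring
      rw [e1]
      apply mul_le_mul_of_nonneg_left _ (by positivity)
      calc 1 - 2 * (k : ℝ) / r = 1 + (k : ℝ) * (-(2 / (r : ℝ))) := by ring
        _ ≤ _ := hb
    have hsmall : 2 * (k : ℝ) / r ≤ (1 - β) / 8 := by
      rw [div_le_iff₀ hrpos]
      have h1 : 16 * (k : ℝ) / (1 - β) < r := by linarith
      rw [div_lt_iff₀ hδ] at h1
      linarith
    have hq3' : (3 : ℝ) ≤ q := by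
      have : 3 ≤ q := by omega
      exact_mod_cast this
    have hq2' : (p : ℝ) < q * (r : ℝ) ^ k + (r : ℝ) ^ k := by exact_mod_cast hq2
    have hPp : (P : ℝ) ≤ p := by
      have : P ≤ p := by nlinarith
      exact_mod_cast this
    have hbig : 8 * (r : ℝ) ^ k < (1 - β) * p := by
      have := hP.trans_le hPp
      rw [div_lt_iff₀ hδ] at this
      linarith
    have hk0 : 0 ≤ 2 * (k : ℝ) / r := by positivity
    have hk1 : 2 * (k : ℝ) / r ≤ 1 := by linarith
    have hR : (0 : ℝ) < (r : ℝ) ^ k := by positivity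
    have step1 : (r : ℝ) ^ k * (1 - 2 * k / r) * ((q : ℝ) - 2) ≤
        ((r : ℝ) - 2) ^ k * ((q : ℝ) - 2) :=
      mul_le_mul_of_nonneg_right hb2 (by linarith)
    have step2 : (p : ℝ) - 3 * (r : ℝ) ^ k ≤ (r : ℝ) ^ k * ((q : ℝ) - 2) := by nlinarith
    have step3 : (1 - 2 * (k : ℝ) / r) * ((p : ℝ) - 3 * (r : ℝ) ^ k) ≤
        (1 - 2 * (k : ℝ) / r) * ((r : ℝ) ^ k * ((q : ℝ) - 2)) :=
      mul_le_mul_of_nonneg_left step2 (by linarith)
    have hp0 : (0 : ℝ) < p := by exact_mod_cast hp.pos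
    have step4 : 2 * (k : ℝ) / r * p ≤ (1 - β) / 8 * p := mul_le_mul_of_nonneg_right hsmall hp0.le
    have step5 : 0 ≤ 2 * (k : ℝ) / r * (3 * (r : ℝ) ^ k) := by positivity
    push_cast
    nlinarith

/-! ### The examples -/

/-- the general scheme: a set `T` of sums such that every element has at least `t` partners -/
theorem scheme {p : ℕ} (A B T : Finset (ZMod p)) (t d : ℕ) (hAB : A.card = B.card)
    (hA : A.card = d + t)
    (h1 : ∀ a ∈ A, t ≤ (T.filter (fun s => s - a ∈ B)).card)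
    (h2 : ∀ b ∈ B, t ≤ (T.filter (fun s => s - b ∈ A)).card) :
    ∃ F : Finset (ZMod p × ZMod p), F ⊆ A ×ˢ B ∧ DegLe F d ∧
      ∀ B' : Finset (ZMod p), B' ⊆ B → (rsum A B' F).card ≤ T.card := by
  classical
  refine ⟨(A ×ˢ B).filter (fun x => x.1 + x.2 ∉ T), Finset.filter_subset _ _, ⟨?_, ?_⟩, ?_⟩
  · intro x
    by_cases hx : x ∈ A
    · have h3 : (((A ×ˢ B).filter (fun y => y.1 + y.2 ∉ T)).filter (fun y => y.1 = x)).card ≤
          (B \ (T.filter (fun s => s - x ∈ B)).image (fun s => s - x)).card := by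
        apply Finset.card_le_card_of_injOn (fun y => y.2)
        · intro y hy
          rw [Finset.mem_coe, Finset.mem_filter, Finset.mem_filter, Finset.mem_product] at hy
          obtain ⟨⟨⟨hy1, hy2⟩, hy3⟩, hy4⟩ := hy
          rw [Finset.mem_coe, Finset.mem_sdiff]
          refine ⟨hy2, fun hy5 => hy3 ?_⟩
          obtain ⟨s, hs, hs'⟩ := Finset.mem_image.1 hy5
          have : y.1 + y.2 = s := by
            simp only at hs'
            rw [hy4, ← hs']; ring
          rw [this]
          exact (Finset.mem_filter.1 hs).1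
        · intro y hy y' hy' hh
          rw [Finset.mem_coe, Finset.mem_filter] at hy hy'
          exact Prod.ext (hy.2.trans hy'.2.symm) hh
      have h4 : ((T.filter (fun s => s - x ∈ B)).image (fun s => s - x)).card =
          (T.filter (fun s => s - x ∈ B)).card :=
        Finset.card_image_of_injective _ (fun a a' h => sub_left_injective h)
      have h5 : (T.filter (fun s => s - x ∈ B)).image (fun s => s - x) ⊆ B := by
        intro y hy
        obtain ⟨s, hs, rfl⟩ := Finset.mem_image.1 hy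
        exact (Finset.mem_filter.1 hs).2
      rw [Finset.card_sdiff_of_subset h5, h4] at h3
      have := h1 x hx
      omega
    · have : ((A ×ˢ B).filter (fun y => y.1 + y.2 ∉ T)).filter (fun y => y.1 = x) = ∅ := by
        apply Finset.filter_eq_empty_iff.2
        intro y hy hyx
        rw [Finset.mem_filter, Finset.mem_product] at hy
        exact hx (hyx ▸ hy.1.1)
      rw [this]; simp
  · intro x
    by_cases hx : x ∈ B
    · have h3 : (((A ×ˢ B).filter (fun y => y.1 + y.2 ∉ T)).filter (fun y => y.2 = x)).card ≤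
          (A \ (T.filter (fun s => s - x ∈ A)).image (fun s => s - x)).card := by
        apply Finset.card_le_card_of_injOn (fun y => y.1)
        · intro y hy
          rw [Finset.mem_coe, Finset.mem_filter, Finset.mem_filter, Finset.mem_product] at hy
          obtain ⟨⟨⟨hy1, hy2⟩, hy3⟩, hy4⟩ := hy
          rw [Finset.mem_coe, Finset.mem_sdiff]
          refine ⟨hy1, fun hy5 => hy3 ?_⟩
          obtain ⟨s, hs, hs'⟩ := Finset.mem_image.1 hy5
          have : y.1 + y.2 = s := by
            simp only at hs'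
            rw [hy4, ← hs']; ring
          rw [this]
          exact (Finset.mem_filter.1 hs).1
        · intro y hy y' hy' hh
          rw [Finset.mem_coe, Finset.mem_filter] at hy hy'
          exact Prod.ext hh (hy.2.trans hy'.2.symm)
      have h4 : ((T.filter (fun s => s - x ∈ A)).image (fun s => s - x)).card =
          (T.filter (fun s => s - x ∈ A)).card :=
        Finset.card_image_of_injective _ (fun a a' h => sub_left_injective h)
      have h5 : (T.filter (fun s => s - x ∈ A)).image (fun s => s - x) ⊆ A := by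
        intro y hy
        obtain ⟨s, hs, rfl⟩ := Finset.mem_image.1 hy
        exact (Finset.mem_filter.1 hs).2
      rw [Finset.card_sdiff_of_subset h5, h4] at h3
      have := h2 x hx
      omega
    · have : ((A ×ˢ B).filter (fun y => y.1 + y.2 ∉ T)).filter (fun y => y.2 = x) = ∅ := by
        apply Finset.filter_eq_empty_iff.2
        intro y hy hyx
        rw [Finset.mem_filter, Finset.mem_product] at hy
        exact hx (hyx ▸ hy.1.2)
      rw [this]; simp
  · intro B' hB'
    apply Finset.card_le_card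
    intro s hs
    obtain ⟨⟨a, b⟩, hab, rfl⟩ := Finset.mem_image.1 hs
    rw [Finset.mem_sdiff, Finset.mem_product] at hab
    by_contra hns
    exact hab.2 (Finset.mem_filter.2 ⟨Finset.mem_product.2 ⟨hab.1.1, hB' hab.1.2⟩, hns⟩)

/-- the vertices of the simplex -/
def vert (k : ℕ) : Option (Fin (k + 1)) → Option (Fin (k + 1) × Bool)
  | none => none
  | some i => some (i, true)

/-- the opposite vertices -/
def tver (k : ℕ) : Option (Fin (k + 1)) → Option (Fin (k + 1) × Bool)
  | none => none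
  | some i => some (i, false)

theorem vert_inj (k : ℕ) : Function.Injective (vert k) := by
  intro o o' h
  cases o <;> cases o' <;> simp_all [vert]

theorem tver_inj (k : ℕ) : Function.Injective (tver k) := by
  intro o o' h
  cases o <;> cases o' <;> simp_all [tver]

theorem step_tver (k : ℕ) (o : Option (Fin (k + 1))) : step k (tver k o) = - step k (vert k o) := by
  cases o with
  | none => simp [vert, tver, step]
  | some i =>
    simp only [vert, tver, step]
    exact Pi.single_neg i 1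

theorem phi_neg {k : ℕ} (r : ℤ) (x : Fin k → ℤ) : phi r (-x) = - phi r x := by
  unfold phi
  rw [← Finset.sum_neg_distrib]
  exact Finset.sum_congr rfl fun i _ => by rw [Pi.neg_apply, neg_mul]

/-- the simplex as the set of sums -/
noncomputable def TS (k : ℕ) (r : ℤ) (p : ℕ) : Finset (ZMod p) :=
  (Finset.univ : Finset (Option (Fin (k + 1)))).image
    fun o => ((phi r (step k (vert k o)) : ℤ) : ZMod p)

theorem steps_inj {k : ℕ} {r q : ℤ} {p : ℕ} (hr : 3 ≤ r) (hq : 3 ≤ q) (hp : q * r ^ k ≤ p) :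
    Function.Injective fun o => ((phi r (step k o) : ℤ) : ZMod p) := by
  intro o o' h
  have h' : ((phi r (step k o) : ℤ) : ZMod p) = ((phi r (step k o') : ℤ) : ZMod p) := h
  apply step_inj k
  rw [← sub_eq_zero]
  apply phi_mod (k := k) (r := r) (q := q) (p := p) (by omega) hp
  · intro i
    have b1 := step_abs k o i
    have b2 := step_abs k o' i
    rw [abs_le] at b1 b2 ⊢
    simp only [Pi.sub_apply]
    unfold bnd
    split_ifs <;> omega
  · rw [phi_sub]; push_cast; rw [h', sub_self]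

theorem TS_card {k : ℕ} {r q : ℤ} {p : ℕ} (hr : 3 ≤ r) (hq : 3 ≤ q) (hp : q * r ^ k ≤ p) :
    (TS k r p).card = k + 2 := by
  unfold TS
  rw [Finset.card_image_of_injective _
    (fun o o' h => vert_inj k (steps_inj hr hq hp h))]
  simp

theorem filt_card {α β : Type*} [Fintype α] [DecidableEq β] (f : α → β) (hf : Function.Injective f)
    (P : β → Prop) [DecidablePred P] (h : ∀ o o', ¬ P (f o) → ¬ P (f o') → o = o') (m : ℕ)
    (hm : Fintype.card α = m + 1) :
    m ≤ (((Finset.univ : Finset α).image f).filter P).card := by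
  classical
  have h1 := Finset.card_filter_add_card_filter_not
    (s := (Finset.univ : Finset α).image f) (p := P)
  rw [Finset.card_image_of_injective _ hf, Finset.card_univ, hm] at h1
  have h2 : (((Finset.univ : Finset α).image f).filter (fun s => ¬ P s)).card ≤ 1 := by
    rw [Finset.card_le_one]
    intro s hs s' hs'
    obtain ⟨hs1, hs2⟩ := Finset.mem_filter.1 hs
    obtain ⟨hs1', hs2'⟩ := Finset.mem_filter.1 hs'
    obtain ⟨o, -, rfl⟩ := Finset.mem_image.1 hs1
    obtain ⟨o', -, rfl⟩ := Finset.mem_image.1 hs1'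
    rw [h o o' hs2 hs2']
  omega

/-- **The examples**, for every `t ≥ 2` and every large prime -/
theorem examples (β : ℝ) (hβ0 : 0 < β) (hβ : β < 1) (t : ℕ) (ht : 2 ≤ t) (n₀ : ℕ) :
    ∃ P₀ : ℕ, ∀ p : ℕ, p.Prime → P₀ ≤ p →
      ∃ (A B : Finset (ZMod p)) (F : Finset (ZMod p × ZMod p)) (d : ℕ),
        n₀ ≤ A.card ∧ A.card = B.card ∧ (A.card : ℝ) < (1 - β) * (p : ℝ) / 2 ∧
        F ⊆ A ×ˢ B ∧ DegLe F d ∧ A.card = d + t ∧
        ∀ B' : Finset (ZMod p), B' ⊆ B → (rsum A B' F).card ≤ t + 1 := by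
  classical
  obtain ⟨k, rfl⟩ : ∃ k, t = k + 1 := ⟨t - 1, by omega⟩
  obtain ⟨P₀, hP₀⟩ := sizes' β hβ0 hβ k (by omega) (n₀ + (k + 1))
  refine ⟨P₀, fun p hp hpP => ?_⟩
  obtain ⟨r, q, hr, hq, hpq, hlow, hup⟩ := hP₀ p hp hpP
  have : NeZero p := ⟨hp.ne_zero⟩
  let A : Finset (ZMod p) := (D k r q p)ᶜ
  have hA : ∀ x, x ∈ A ↔ x ∉ D k r q p := fun x => Finset.mem_compl
  have hDc := D_card (k := k) (r := r) (q := q) (p := p) (by omega) hpq (by omega) (by omega)
  have hAc : (A.card : ℤ) = (p : ℤ) - (r - 2) ^ k * (q - 2) := by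
    have h1 : A.card = p - (D k r q p).card := by
      have := Finset.card_compl (D k r q p)
      rwa [ZMod.card] at this
    have h2 : (D k r q p).card ≤ p := by
      have := Finset.card_le_univ (D k r q p)
      rwa [ZMod.card] at this
    rw [h1, Nat.cast_sub h2, hDc]
  have hbig : n₀ + (k + 1) ≤ A.card := by
    have : ((n₀ + (k + 1) : ℕ) : ℤ) ≤ A.card := by rw [hAc]; exact hlow
    exact_mod_cast this
  have hnA : (-A).card = A.card := by simp
  have hr0 : 0 < r := by omega
  obtain ⟨F, hF1, hF2, hF3⟩ := scheme A (-A) (TS k r p) (k + 1) (A.card - (k + 1)) hnA.symm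
    (by omega) (by
      intro a ha
      have haD := (hA a).1 ha
      apply filt_card _ (fun o o' h => vert_inj k (steps_inj hr hq hpq h)) _ _ (k + 1) (by simp)
      intro o o' h1 h2
      apply tver_inj k
      apply D_key hr0 hpq haD
      · rw [step_tver, phi_neg]
        rw [Finset.mem_neg', hA, not_not] at h1
        push_cast
        convert h1 using 1
        ring
      · rw [step_tver, phi_neg]
        rw [Finset.mem_neg', hA, not_not] at h2
        push_cast
        convert h2 using 1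
        ring) (by
      intro b hb
      rw [Finset.mem_neg', hA] at hb
      apply filt_card _ (fun o o' h => vert_inj k (steps_inj hr hq hpq h)) _ _ (k + 1) (by simp)
      intro o o' h1 h2
      apply vert_inj k
      apply D_key hr0 hpq hb
      · rw [hA, not_not] at h1
        convert h1 using 1
        ring
      · rw [hA, not_not] at h2
        convert h2 using 1
        ring)
  refine ⟨A, -A, F, A.card - (k + 1), by omega, hnA.symm, ?_, hF1, hF2, by omega, ?_⟩
  · have : (A.card : ℝ) = (p : ℝ) - ((r : ℝ) - 2) ^ k * ((q : ℝ) - 2) := by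
      have h := congrArg (fun z : ℤ => (z : ℝ)) hAc
      push_cast at h
      exact h
    rw [this]; exact hup
  · intro B' hB'
    have := hF3 B' hB'
    rw [TS_card hr hq hpq] at this
    exact this

/-- the examples for the one-set statement, for every `t ≥ 3` -/
theorem examples_one (β : ℝ) (hβ0 : 0 < β) (hβ : β < 1) (t : ℕ) (ht : 3 ≤ t) (n₀ : ℕ) :
    ∃ P₀ : ℕ, ∀ p : ℕ, p.Prime → P₀ ≤ p →
      ∃ (A : Finset (ZMod p)) (F : Finset (ZMod p × ZMod p)) (d : ℕ),
        n₀ ≤ A.card ∧ (A.card : ℝ) < (1 - β) * (p : ℝ) / 2 ∧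
        F ⊆ A ×ˢ A ∧ DegLe F d ∧ A.card = d + t ∧
        ∀ B' : Finset (ZMod p), B' ⊆ A → (rsum A B' F).card ≤ 2 * ((t + 1) / 2) + 1 := by
  classical
  obtain ⟨k, hk⟩ : ∃ k, (t + 1) / 2 = k + 1 := ⟨(t + 1) / 2 - 1, by omega⟩
  have ht2 : t ≤ 2 * (k + 1) := by omega
  obtain ⟨P₀, hP₀⟩ := sizes' β hβ0 hβ k (by omega) (n₀ + 2 * (k + 1))
  refine ⟨P₀, fun p hp hpP => ?_⟩
  obtain ⟨r, q, hr, hq, hpq, hlow, hup⟩ := hP₀ p hp hpP
  have : NeZero p := ⟨hp.ne_zero⟩
  let A : Finset (ZMod p) := (D k r q p)ᶜ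
  have hA : ∀ x, x ∈ A ↔ x ∉ D k r q p := fun x => Finset.mem_compl
  have hDc := D_card (k := k) (r := r) (q := q) (p := p) (by omega) hpq (by omega) (by omega)
  have hAc : (A.card : ℤ) = (p : ℤ) - (r - 2) ^ k * (q - 2) := by
    have h1 : A.card = p - (D k r q p).card := by
      have := Finset.card_compl (D k r q p)
      rwa [ZMod.card] at this
    have h2 : (D k r q p).card ≤ p := by
      have := Finset.card_le_univ (D k r q p)
      rwa [ZMod.card] at this
    rw [h1, Nat.cast_sub h2, hDc]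
  have hbig : n₀ + 2 * (k + 1) ≤ A.card := by
    have : ((n₀ + 2 * (k + 1) : ℕ) : ℤ) ≤ A.card := by rw [hAc]; exact hlow
    exact_mod_cast this
  have hgood : ∀ a ∈ A, t ≤ ((T k r q p).filter (fun s => s - a ∈ A)).card := by
    intro a ha
    obtain ⟨Q, hQA, hQc, hQ⟩ := good hr hq hpq A hA ha
    have h1 : Q.card ≤ ((T k r q p).filter (fun s => s - a ∈ A)).card := by
      apply Finset.card_le_card_of_injOn (fun b => a + b)
      · intro b hb
        rw [Finset.mem_coe] at hb
        rw [Finset.mem_coe, Finset.mem_filter]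
        refine ⟨hQ b hb, ?_⟩
        rw [add_sub_cancel_left]
        exact hQA hb
      · intro b _ b' _ h
        exact add_left_cancel h
    omega
  obtain ⟨F, hF1, hF2, hF3⟩ := scheme A A (T k r q p) t (A.card - t) rfl (by omega) hgood hgood
  refine ⟨A, F, A.card - t, by omega, ?_, hF1, hF2, by omega, ?_⟩
  · have : (A.card : ℝ) = (p : ℝ) - ((r : ℝ) - 2) ^ k * ((q : ℝ) - 2) := by
      have h := congrArg (fun z : ℤ => (z : ℝ)) hAc
      push_cast at h
      exact h
    rw [this]; exact hup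
  · intro B' hB'
    rw [hk]
    exact (hF3 B' hB').trans (T_card k r q p)

/-- **Restricted sums in two sets, complete answer for fixed `n - d`.** Let `0 < β < 1`.

(1) The statement of Question 1 is false for `β`.

(2) For `t ≥ 1` the statement of Question 1 restricted to `d = n - t` is true if and only if
`t ≤ 2`.

(3) The one-set statement restricted to `d = n - t` is false for every `t ≥ 4`.

(4) For all primes `p`, all sets `A, B` with `|A| = |B| = n < p` and all `F` of maximum degree at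
most `d ≤ n - 2` there is a set `B'` of at most two elements of `B` with
`|A +_F B'| ≥ n - d + 1`.

(5) The bound in (4) is best possible, for all `t = n - d ≥ 2` and in `ℤ/p` for all large primes
`p`, even for `B' = B`: there are such `A, B, F` with `n₀ ≤ n < (1 - β) p / 2` and
`|A +_F B| = n - d + 1`. -/
theorem result (β : ℝ) (hβ0 : 0 < β) (hβ1 : β < 1) :
    ¬ Q1 β ∧
    (∀ t : ℕ, 1 ≤ t → (TwoSet β t ↔ t ≤ 2)) ∧
    (∀ t : ℕ, 4 ≤ t → ¬ OneSet β t) ∧
    (∀ p : ℕ, p.Prime → ∀ (A B : Finset (ZMod p)) (F : Finset (ZMod p × ZMod p)) (d : ℕ),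
      A.card = B.card → A.card < p → DegLe F d → d + 2 ≤ A.card →
      ∃ B' : Finset (ZMod p), B' ⊆ B ∧ B'.card ≤ 2 ∧
        (A.card : ℤ) - d + 1 ≤ ((rsum A B' F).card : ℤ)) ∧
    ∀ t : ℕ, 2 ≤ t → ∀ n₀ : ℕ, ∃ P₀ : ℕ, ∀ p : ℕ, p.Prime → P₀ ≤ p →
      ∃ (A B : Finset (ZMod p)) (F : Finset (ZMod p × ZMod p)) (d : ℕ),
        n₀ ≤ A.card ∧ A.card = B.card ∧ (A.card : ℝ) < (1 - β) * (p : ℝ) / 2 ∧
        F ⊆ A ×ˢ B ∧ DegLe F d ∧ A.card = d + t ∧
        (∀ B' : Finset (ZMod p), B' ⊆ B → ((rsum A B' F).card : ℤ) ≤ (A.card : ℤ) - d + 1) ∧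
        ((rsum A B F).card : ℤ) = (A.card : ℤ) - d + 1 := by
  classical
  have hsmall : ∀ (p : ℕ) (n : ℕ), p.Prime → (n : ℝ) < (1 - β) * (p : ℝ) / 2 → n < p := by
    intro p n hp h
    have hp0 : (0 : ℝ) < p := by exact_mod_cast hp.pos
    have : (n : ℝ) < p := by nlinarith
    exact_mod_cast this
  have hno : ∀ t : ℕ, 3 ≤ t → ¬ TwoSet β t := by
    rintro t ht ⟨c, n₀, h⟩
    obtain ⟨P₀, hP⟩ := examples β hβ0 hβ1 t (by omega) n₀
    obtain ⟨p, hp1, hp⟩ := Nat.exists_infinite_primes P₀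
    obtain ⟨A, B, F, d, h1, h2, h3, h4, h5, h6, h7⟩ := hP p hp hp1
    obtain ⟨B', hB', -, h8⟩ := h p hp A B F d h1 h2 h3 h4 h5 h6
    have := h7 B' hB'
    omega
  refine ⟨?_, ?_, ?_, ?_, ?_⟩
  · rintro ⟨c, n₀, h⟩
    exact hno 3 le_rfl ⟨c, n₀, fun p hp A B F d h1 h2 h3 h4 h5 _ => h p hp A B F d h1 h2 h3 h4 h5⟩
  · intro t ht
    constructor
    · intro h
      by_contra hlt
      exact hno t (by omega) h
    · intro ht2
      refine ⟨2, 0, fun p hp A B F d h1 h2 h3 h4 h5 h6 => ?_⟩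
      have hAp := hsmall p A.card hp h3
      rcases Nat.lt_or_ge t 2 with h7 | h7
      · -- `t = 1`
        have hBne : B.Nonempty := by
          rw [← Finset.card_pos, ← h2]; omega
        obtain ⟨b, hb⟩ := hBne
        obtain ⟨P, -, hPc, hP, hPi⟩ := partners (A := A) h5 hb
        refine ⟨{b}, Finset.singleton_subset_iff.2 hb, by simp, ?_⟩
        rw [hP, hPi]
        omega
      · obtain ⟨B', hB', hB2, h8⟩ := lower p hp A B F d h2 hAp h5 (by omega)
        exact ⟨B', hB', hB2, by omega⟩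
  · rintro t ht ⟨c, n₀, h⟩
    obtain ⟨P₀, hP⟩ := examples_one β hβ0 hβ1 t (by omega) n₀
    obtain ⟨p, hp1, hp⟩ := Nat.exists_infinite_primes P₀
    obtain ⟨A, F, d, h1, h3, h4, h5, h6, h7⟩ := hP p hp hp1
    obtain ⟨B', hB', -, h8⟩ := h p hp A F d h1 h3 h4 h5 h6
    have := h7 B' hB'
    omega
  · intro p hp A B F d h1 h2 h3 h4
    obtain ⟨B', hB', hB2, h8⟩ := lower p hp A B F d h1 h2 h3 h4
    exact ⟨B', hB', hB2, by omega⟩
  · intro t ht n₀
    obtain ⟨P₀, hP⟩ := examples β hβ0 hβ1 t ht n₀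
    refine ⟨P₀, fun p hp hpP => ?_⟩
    obtain ⟨A, B, F, d, h1, h2, h3, h4, h5, h6, h7⟩ := hP p hp hpP
    have h9 : ∀ B' : Finset (ZMod p), B' ⊆ B →
        ((rsum A B' F).card : ℤ) ≤ (A.card : ℤ) - d + 1 := by
      intro B' hB'
      have := h7 B' hB'
      omega
    refine ⟨A, B, F, d, h1, h2, h3, h4, h5, h6, h9, le_antisymm (h9 B (Finset.Subset.refl _)) ?_⟩
    obtain ⟨B', hB', -, h8⟩ := lower p hp A B F d h2 (hsmall p A.card hp h3) h5 (by omega)
    have := Finset.card_le_card (rsum_mono (A := A) (F := F) hB')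
    omega

end Pool.Agent.Results.MP_0e87b2_co.FixedCodegree
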